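import Pool.Agent.QUD.StmtsY

/-!
# Squad QUD, row NCJ: a polygon with a facing pair at its first level is a quadrilateral
-/

set_option autoImplicit false

namespace Pool.Agent.QUD.H98J

open MeasureTheory Complex Filter Topology Pool.Agent.H16Iso Pool.Agent.H62T
open Pool.Agent.AEU Pool.Agent.XQ

theorem ip_add' (a b c : ℂ) (r : ℝ) : ip a (b + (r : ℂ) * c) = ip a b + r * ip a c := by
  unfold ip
  simp
  ring

theorem ip_cm (a b : ℂ) : ip a b = ip b a := by
  unfold ip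
  ring

theorem ip_neg' (a b : ℂ) : ip a (-b) = -ip a b := by
  unfold ip
  simp
  ring

theorem ip_neg_l (a b : ℂ) : ip (-a) b = -ip a b := by
  unfold ip
  simp
  ring

theorem ip_self' {a : ℂ} (h : ‖a‖ = 1) : ip a a = 1 := by
  have h2 : ‖a‖ ^ 2 = a.re * a.re + a.im * a.im := by
    rw [Complex.sq_norm, Complex.normSq_apply]
  unfold ip
  rw [← h2, h]
  norm_num

/-- coordinates -/
theorem co {ν τ : ℂ} {σ : ℝ} (hν : ‖ν‖ = 1) (hτ : τ = (σ : ℂ) * (I * ν)) (hσ : σ ^ 2 = 1) :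
    (∀ u w, ip u w = ip τ u * ip τ w + ip ν u * ip ν w) ∧
    (∀ u w, dt u w = σ * (ip ν u * ip τ w - ip τ u * ip ν w)) ∧
    (∀ u, ip τ (I * u) = σ * ip ν u) ∧ (∀ u, ip ν (I * u) = -(σ * ip τ u)) ∧
    ip τ τ = 1 ∧ ip ν τ = 0 := by
  have h1 : ν.re * ν.re + ν.im * ν.im = 1 := by
    have := ip_self' hν
    unfold ip at this
    exact this
  have e1 : τ.re = -(σ * ν.im) := by rw [hτ]; simp
  have e2 : τ.im = σ * ν.re := by rw [hτ]; simp
  have h2 : σ * σ = 1 := by nlinarith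
  refine ⟨?_, ?_, ?_, ?_, ?_, ?_⟩
  · intro u w
    unfold ip
    rw [e1, e2]
    have : (-(σ * ν.im) * u.re + σ * ν.re * u.im) * (-(σ * ν.im) * w.re + σ * ν.re * w.im)
        + (ν.re * u.re + ν.im * u.im) * (ν.re * w.re + ν.im * w.im)
        = (σ * σ) * ((-ν.im * u.re + ν.re * u.im) * (-ν.im * w.re + ν.re * w.im))
        + (ν.re * u.re + ν.im * u.im) * (ν.re * w.re + ν.im * w.im) := by ring
    rw [this, h2]
    have : 1 * ((-ν.im * u.re + ν.re * u.im) * (-ν.im * w.re + ν.re * w.im))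
        + (ν.re * u.re + ν.im * u.im) * (ν.re * w.re + ν.im * w.im)
        = (ν.re * ν.re + ν.im * ν.im) * (u.re * w.re + u.im * w.im) := by ring
    rw [this, h1]
    ring
  · intro u w
    unfold ip dt
    rw [e1, e2]
    have : σ * ((ν.re * u.re + ν.im * u.im) * (-(σ * ν.im) * w.re + σ * ν.re * w.im)
        - (-(σ * ν.im) * u.re + σ * ν.re * u.im) * (ν.re * w.re + ν.im * w.im))
        = (σ * σ) * ((ν.re * ν.re + ν.im * ν.im) * (u.re * w.im - u.im * w.re)) := by ring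
    rw [this, h2, h1]
    ring
  · intro u
    unfold ip
    rw [e1, e2]
    simp
    ring
  · intro u
    unfold ip
    rw [e1, e2]
    have : -(σ * (-(σ * ν.im) * u.re + σ * ν.re * u.im))
      = (σ * σ) * (ν.im * u.re - ν.re * u.im) := by ring
    rw [this, h2]
    simp
    ring
  · unfold ip
    rw [e1, e2]
    have : -(σ * ν.im) * -(σ * ν.im) + σ * ν.re * (σ * ν.re)
      = (σ * σ) * (ν.re * ν.re + ν.im * ν.im) := by ring
    rw [this, h2, h1]
    norm_num
  · unfold ip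
    rw [e1, e2]
    ring

/-- small steps -/
theorem stp (X : Finset HP) {x w : ℂ} (hx : x ∈ Cl X)
    (h : ∀ s ∈ X, ip s.1 x = s.2 → ip s.1 w ≤ 0) :
    ∃ ε : ℝ, 0 < ε ∧ x + (ε : ℂ) * w ∈ Cl X := by
  have hev : ∀ s ∈ X, ∀ᶠ ε : ℝ in 𝓝[>] (0 : ℝ), ip s.1 (x + (ε : ℂ) * w) ≤ s.2 := by
    intro s hs
    rcases eq_or_lt_of_le (hx s hs) with h0 | h0
    · filter_upwards [self_mem_nhdsWithin] with ε hε
      have hε' : (0 : ℝ) < ε := hε
      rw [ip_add', h0]
      have := mul_nonpos_of_nonneg_of_nonpos hε'.le (h s hs h0)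
      linarith
    · have hc : Continuous fun ε : ℝ => ip s.1 x + ε * ip s.1 w := by fun_prop
      have h1 : ∀ᶠ ε in 𝓝 (0 : ℝ), ip s.1 x + ε * ip s.1 w < s.2 := by
        apply hc.continuousAt.eventually (gt_mem_nhds _)
        simpa using h0
      filter_upwards [nhdsWithin_le_nhds h1] with ε hε
      rw [ip_add']
      exact hε.le
  have hall : ∀ᶠ ε : ℝ in 𝓝[>] (0 : ℝ), ∀ s ∈ X, ip s.1 (x + (ε : ℂ) * w) ≤ s.2 :=
    (Filter.eventually_all_finset X).mpr hev
  obtain ⟨ε, h1, h2⟩ := (hall.and self_mem_nhdsWithin).exists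
  exact ⟨ε, h2, h1⟩

theorem nrm_sq (z : ℂ) {ν τ : ℂ} (h1 : ∀ u w, ip u w = ip τ u * ip τ w + ip ν u * ip ν w) :
    ‖z‖ ^ 2 = ip τ z ^ 2 + ip ν z ^ 2 := by
  have h2 : ‖z‖ ^ 2 = ip z z := by
    rw [Complex.sq_norm, Complex.normSq_apply]
    rfl
  rw [h2, h1]
  ring

/-- real inequality of part (1) -/
theorem r1 {a1 a2 c1 c2 r r' d : ℝ} (ha1 : 0 < a1) (ha2 : 0 < a2) (hc1 : 0 ≤ c1) (hc2 : 0 ≤ c2)
    (h1 : c1 ^ 2 + a1 ^ 2 = 1) (h2 : c2 ^ 2 + a2 ^ 2 = 1) (hd : 0 < d) (hr : d ≤ r)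
    (hr' : d ≤ r') (hsum : r * a1 + r' * a2 ≤ d)
    (hs : a1 * a2 < c1 * c2 → (r ≤ r' → d ≤ r * (a1 * c2 + a2 * c1)) ∧
      (r' ≤ r → d ≤ r' * (a1 * c2 + a2 * c1))) : False := by
  have hc1' : c1 < 1 := by nlinarith
  have hc2' : c2 < 1 := by nlinarith
  rcases le_or_gt (c1 * c2) (a1 * a2) with h | h
  · have h3 : (c1 * c2) ^ 2 ≤ (a1 * a2) ^ 2 := by
      apply pow_le_pow_left₀ (by positivity) h
    have h4 : 1 ≤ a1 ^ 2 + a2 ^ 2 := by nlinarith
    have h5 : 1 < a1 + a2 := by nlinarith [mul_pos ha1 ha2]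
    have h6 : d * a1 ≤ r * a1 := mul_le_mul_of_nonneg_right hr ha1.le
    have h7 : d * a2 ≤ r' * a2 := mul_le_mul_of_nonneg_right hr' ha2.le
    nlinarith
  · have hlt : a1 * c2 + a2 * c1 < a1 + a2 := by nlinarith
    obtain ⟨hs1, hs2⟩ := hs h
    rcases le_total r r' with hh | hh
    · have h3 := hs1 hh
      have hrp : 0 < r := lt_of_lt_of_le hd hr
      have h4 : r * (a1 * c2 + a2 * c1) < r * (a1 + a2) := mul_lt_mul_of_pos_left hlt hrp
      have h5 : r * a2 ≤ r' * a2 := mul_le_mul_of_nonneg_right hh ha2.le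
      nlinarith
    · have h3 := hs2 hh
      have hrp : 0 < r' := lt_of_lt_of_le hd hr'
      have h4 : r' * (a1 * c2 + a2 * c1) < r' * (a1 + a2) := mul_lt_mul_of_pos_left hlt hrp
      have h5 : r' * a1 ≤ r * a1 := mul_le_mul_of_nonneg_right hh ha1.le
      nlinarith


theorem on_ip {x : ℂ} {u : ℂ} {y z : ℂ} {r : ℝ} (h : z - y = (r : ℂ) * u) :
    ip x z = ip x y + r * ip x u := by
  have : z = y + (r : ℂ) * u := by rw [← h]; ring
  rw [this, ip_add']

theorem norm_dir {u : ℂ} (hu : ‖u‖ = 1) {r : ℝ} (hr : 0 < r) {z y : ℂ}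
    (h : z - y = (r : ℂ) * (I * u)) : ‖z - y‖ = r ∧ y ≠ z := by
  have h1 : ‖z - y‖ = r := by
    rw [h, norm_mul, norm_mul, Complex.norm_real, Complex.norm_I, hu, Real.norm_eq_abs,
      abs_of_pos hr]
    ring
  refine ⟨h1, fun h2 => ?_⟩
  rw [h2, sub_self, norm_zero] at h1
  linarith

/-- the case that the extreme point lies on one of the two parallel sides -/
theorem r2 (end_ : EndStmt) (sgl : SglStmt) (vxx : VxxStatement) (X : Finset HP) (L : ℝ)
    (hX : Pg X) (hL : 0 < L) (hB : Below X L) {a a' : HP} (ha : a ∈ X) (ha' : a' ∈ X)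
    (hopp : a'.1 = -a.1) (hdist : a.2 + a'.2 = L / 2) {τ : ℂ} {σ : ℝ}
    (hτ : τ = (σ : ℂ) * (I * a.1)) (hσ : σ ^ 2 = 1) {x : ℂ} (hx : x ∈ Cl X)
    (hmax : ∀ y ∈ Cl X, ip τ y ≤ ip τ x) (hon : ip a.1 x = a.2) :
    ∃ (e : HP) (z : ℂ), VxOf X a e x ∧ VxOf X e a' z ∧ 0 < ip e.1 τ := by
  have hν : ‖a.1‖ = 1 := hX.unit a ha
  obtain ⟨c1, c2, c3, c4, c5, c6⟩ := co hν hτ hσ
  obtain ⟨v1, v2, v3, v4, v5, v6, v7, v8, v9, v10, v11⟩ := vxx X hX
  obtain ⟨-, endv⟩ := end_ X hX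
  obtain ⟨sg1, sg2, -⟩ := sgl X L hX hB
  have hστ : σ * σ = 1 := by nlinarith
  -- the side which blocks the direction τ
  have h1 : ∃ e ∈ X, ip e.1 x = e.2 ∧ 0 < ip e.1 τ := by
    by_contra hno
    push Not at hno
    obtain ⟨ε, hε, hC⟩ := stp X hx hno
    have h2 := hmax _ hC
    rw [ip_add', c5] at h2
    linarith
  obtain ⟨e, he, hex, hep⟩ := h1
  have hea : a ≠ e := by
    rintro rfl
    rw [c6] at hep
    exact lt_irrefl _ hep
  have hV : VxOf X a e x := ⟨hx, ha, he, hea, hon, hex⟩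
  have hV' : VxOf X e a x := ⟨hx, he, ha, hea.symm, hex, hon⟩
  obtain ⟨t, y, r, hVt, hte, hr, hy⟩ := endv a e x hV
  obtain ⟨f, z, r', hVf, hfa, hr', hz⟩ := endv e a x hV'
  have hpe : ip e.1 τ = ip τ e.1 := ip_cm _ _
  rw [hpe] at hep
  have hu : ip τ e.1 ^ 2 + ip a.1 e.1 ^ 2 = 1 := by
    rw [← nrm_sq e.1 c1, hX.unit e he, one_pow]
  have haa : ip a.1 a.1 = 1 := ip_self' hν
  have hta : ip τ a.1 = 0 := by rw [ip_cm, c6]
  -- the point y
  have hy1 : ‖x - y‖ = r ∧ y ≠ x := by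
    rcases hy with ⟨-, hy⟩ | ⟨-, hy⟩
    · exact norm_dir hν hr hy
    · have := norm_dir hν hr hy
      exact ⟨by rw [norm_sub_rev]; exact this.1, fun h => this.2 h.symm⟩
  -- the point z
  have hz1 : ‖x - z‖ = r' ∧ z ≠ x := by
    rcases hz with ⟨-, hz⟩ | ⟨-, hz⟩
    · exact norm_dir (hX.unit e he) hr' hz
    · have := norm_dir (hX.unit e he) hr' hz
      exact ⟨by rw [norm_sub_rev]; exact this.1, fun h => this.2 h.symm⟩
  have hza : ip a.1 z < a.2 := v2 e f z hVf a ha hea (fun h => hfa h.symm)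
  have hz2 : ip a.1 z = a.2 - r' * ip τ e.1 ∧ ip τ z = ip τ x + r' * ip a.1 e.1 := by
    have hs1 : σ = 1 ∨ σ = -1 := by
      have : (σ - 1) * (σ + 1) = 0 := by ring_nf; linarith
      rcases mul_eq_zero.mp this with h | h
      · left; linarith
      · right; linarith
    have hrp : 0 < r' * ip τ e.1 := mul_pos hr' hep
    rcases hz with ⟨-, hz⟩ | ⟨-, hz⟩
    · have e1 := on_ip (x := a.1) hz
      have e2 := on_ip (x := τ) hz
      rw [c4] at e1
      rw [c3] at e2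
      rcases hs1 with hs1 | hs1
      · rw [hs1] at e1 e2
        exfalso
        nlinarith
      · rw [hs1] at e1 e2
        constructor
        · linarith
        · linarith
    · have e1 := on_ip (x := a.1) hz
      have e2 := on_ip (x := τ) hz
      rw [c4] at e1
      rw [c3] at e2
      rcases hs1 with hs1 | hs1
      · rw [hs1] at e1 e2
        constructor
        · linarith
        · linarith
      · rw [hs1] at e1 e2
        exfalso
        nlinarith
  have hq : ip a.1 e.1 ≤ 0 := by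
    have h2 := hmax z hVf.cl
    rw [hz2.2] at h2
    by_contra hc
    push Not at hc
    have := mul_pos hr' hc
    linarith
  have hL1 : L ≤ 2 * r := by
    have := sg1 e a t x y hV' hVt (fun h => hte h.symm)
    rwa [hy1.1] at this
  have hL2 : L ≤ 2 * r' := by
    have := sg1 a e f x z hV hVf (fun h => hfa h.symm)
    rwa [hz1.1] at this
  have hza' : ip a'.1 z ≤ a'.2 := hVf.cl a' ha'
  rw [hopp, ip_neg_l] at hza'
  have hle : r' * ip τ e.1 ≤ L / 2 := by linarith [hz2.1]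
  rcases eq_or_lt_of_le hle with heq | hlt
  · -- a' is active at z
    have hact : ip a'.1 z = a'.2 := by
      rw [hopp, ip_neg_l, hz2.1]
      linarith
    refine ⟨e, z, hV, ?_, by rw [hpe]; exact hep⟩
    rcases v1 e f z hVf a' ha' hact with h | h
    · exfalso
      have h3 : ip a'.1 x = a'.2 := by rw [h]; exact hex
      rw [hopp, ip_neg_l, hon] at h3
      linarith
    · rw [h]
      exact hVf
  · exfalso
    have hp1 : ip τ e.1 < 1 := by
      by_contra hc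
      push Not at hc
      have : r' * 1 ≤ r' * ip τ e.1 := mul_le_mul_of_nonneg_left hc hr'.le
      linarith
    have hq' : ip a.1 e.1 < 0 := by
      rcases eq_or_lt_of_le hq with h | h
      · rw [h] at hu
        nlinarith
      · exact h
    have hdt : |dt a.1 e.1| = ip τ e.1 := by
      rw [c2, haa, hta]
      have : σ * (1 * ip τ e.1 - 0 * ip a.1 e.1) = σ * ip τ e.1 := by ring
      rw [this, abs_mul, abs_of_pos hep]
      have : |σ| = 1 := by
        have h5 : |σ| * |σ| = 1 := by rw [← abs_mul, hστ, abs_one]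
        nlinarith [abs_nonneg σ]
      rw [this, one_mul]
    rcases le_total r r' with h | h
    · have h3 := sg2 a e t f x y z hV hVt hte hVf hfa hy1.2 hz1.2 hq' (by rw [hy1.1, hz1.1]; exact h)
      rw [hy1.1, hdt] at h3
      have : r * ip τ e.1 ≤ r' * ip τ e.1 := mul_le_mul_of_nonneg_right h hep.le
      linarith
    · have hq2 : ip e.1 a.1 < 0 := by rw [ip_cm]; exact hq'
      have hdt' : |dt e.1 a.1| = ip τ e.1 := by
        have : dt e.1 a.1 = -dt a.1 e.1 := by unfold dt; ring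
        rw [this, abs_neg, hdt]
      have h3 := sg2 e a f t x z y hV' hVf hfa hVt hte hz1.2 hy1.2 hq2 (by rw [hy1.1, hz1.1]; exact h)
      rw [hz1.1, hdt'] at h3
      linarith

/-- the case that the extreme point lies strictly between the parallel sides -/
theorem r1core (end_ : EndStmt) (sgl : SglStmt) (X : Finset HP) (L : ℝ)
    (hX : Pg X) (hL0 : 0 < L) (hB : Below X L) {a a' : HP} (ha : a ∈ X) (ha' : a' ∈ X)
    (hopp : a'.1 = -a.1) (hdist : a.2 + a'.2 = L / 2) {τ : ℂ} {σ : ℝ}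
    (hτ : τ = (σ : ℂ) * (I * a.1)) (hσ : σ ^ 2 = 1) {x : ℂ}
    (hmax : ∀ y ∈ Cl X, ip τ y ≤ ip τ x) (h0 : ip a.1 x < a.2) (h0' : ip a'.1 x < a'.2)
    {e e' : HP} (hV : VxOf X e e' x) (hV' : VxOf X e' e x) (hdt : 0 < dt e.1 e'.1) : False := by
  have hν : ‖a.1‖ = 1 := hX.unit a ha
  have hL : 0 < L / 2 := by linarith
  obtain ⟨c1, c2, c3, c4, c5, c6⟩ := co hν hτ hσ
  obtain ⟨-, endv⟩ := end_ X hX
  obtain ⟨sg1, sg2, -⟩ := sgl X L hX hB
  have hστ : σ * σ = 1 := by nlinarith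
  have hσa : |σ| = 1 := by
    have h5 : |σ| * |σ| = 1 := by rw [← abs_mul, hστ, abs_one]
    nlinarith [abs_nonneg σ]
  obtain ⟨f, z, r, hVf, hfe, hr, hz⟩ := endv e e' x hV
  obtain ⟨f', z', r', hVf', hfe', hr', hz'⟩ := endv e' e x hV'
  have hdt' : dt e'.1 e.1 < 0 := by
    have : dt e'.1 e.1 = -dt e.1 e'.1 := by unfold dt; ring
    linarith
  have hz1 : x - z = (r : ℂ) * (I * e.1) := by
    rcases hz with ⟨-, hz⟩ | ⟨h, -⟩
    · exact hz
    · exact absurd hdt (not_lt.mpr h.le)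
  have hz1' : z' - x = (r' : ℂ) * (I * e'.1) := by
    rcases hz' with ⟨h, -⟩ | ⟨-, hz'⟩
    · exact absurd hdt' (not_lt.mpr h.le)
    · exact hz'
  obtain ⟨n1, n2⟩ := norm_dir (hX.unit e hV.mem₁) hr hz1
  obtain ⟨n1', n2'⟩ := norm_dir (hX.unit e' hV.mem₂) hr' hz1'
  have n1'' : ‖x - z'‖ = r' := by rw [norm_sub_rev]; exact n1'
  set p := ip τ e.1 with hp
  set q := ip a.1 e.1 with hq
  set p' := ip τ e'.1 with hp'
  set q' := ip a.1 e'.1 with hq'
  have hu : p ^ 2 + q ^ 2 = 1 := by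
    rw [hp, hq, ← nrm_sq e.1 c1, hX.unit e hV.mem₁, one_pow]
  have hu' : p' ^ 2 + q' ^ 2 = 1 := by
    rw [hp', hq', ← nrm_sq e'.1 c1, hX.unit e' hV.mem₂, one_pow]
  have ez := on_ip (x := a.1) hz1
  have ez2 := on_ip (x := τ) hz1
  have ez' := on_ip (x := a.1) hz1'
  have ez2' := on_ip (x := τ) hz1'
  rw [c4] at ez ez'
  rw [c3] at ez2 ez2'
  rw [← hp] at ez
  rw [← hq] at ez2
  rw [← hp'] at ez'
  rw [← hq'] at ez2'
  have hX1 := hmax z hVf.cl
  have hX2 := hmax z' hVf'.cl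
  have hc1 : 0 ≤ σ * q := by
    by_contra hc
    push Not at hc
    have := mul_neg_of_pos_of_neg hr hc
    linarith
  have hc2 : 0 ≤ -(σ * q') := by
    by_contra hc
    push Not at hc
    have hc' : 0 < σ * q' := by linarith
    have := mul_pos hr' hc'
    linarith
  have hd : dt e.1 e'.1 = σ * (q * p' - p * q') := by
    rw [c2]
  -- points of the two parallel sides
  have hN : ∀ u ∈ Cl X, a.2 - L / 2 ≤ ip a.1 u ∧ ip a.1 u ≤ a.2 := by
    intro u hu
    have h1 := hu a ha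
    have h2 := hu a' ha'
    rw [hopp, ip_neg_l] at h2
    constructor
    · linarith
    · exact h1
  have hpair : ∀ u ∈ Cl X, ∃ A B : ℝ, 0 ≤ A ∧ 0 ≤ B ∧
      dt e.1 e'.1 * (ip a.1 u - ip a.1 x) = A * (σ * p) + B * (-(σ * p')) := by
    intro u hu
    refine ⟨e'.2 - ip e'.1 u, e.2 - ip e.1 u, by linarith [hu e' hV.mem₂],
      by linarith [hu e hV.mem₁], ?_⟩
    have e1 : e.2 = ip e.1 x := hV.on₁.symm
    have e2 : e'.2 = ip e'.1 x := hV.on₂.symm
    rw [e1, e2, hd, c1 e.1 u, c1 e.1 x, c1 e'.1 u, c1 e'.1 x, ← hp, ← hq, ← hp', ← hq']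
    ring
  obtain ⟨u0, hu0, hu0'⟩ := hX.side a ha
  have hu0C : u0 ∈ Cl X := by
    intro s hs
    by_cases h : s = a
    · rw [h, hu0]
    · exact (hu0' s hs h).le
  obtain ⟨u1, hu1, hu1'⟩ := hX.side a' ha'
  have hu1C : u1 ∈ Cl X := by
    intro s hs
    by_cases h : s = a'
    · rw [h, hu1]
    · exact (hu1' s hs h).le
  have hu1N : ip a.1 u1 = a.2 - L / 2 := by
    rw [hopp, ip_neg_l] at hu1
    linarith
  have hxN : a.2 - L / 2 < ip a.1 x := by
    rw [hopp, ip_neg_l] at h0'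
    linarith
  obtain ⟨A, B, hA, hB', hAB⟩ := hpair u0 hu0C
  obtain ⟨A1, B1, hA1, hB1, hAB1⟩ := hpair u1 hu1C
  rw [hu0] at hAB
  rw [hu1N] at hAB1
  have hpos : 0 < A * (σ * p) + B * (-(σ * p')) := by
    rw [← hAB]
    exact mul_pos hdt (by linarith)
  have hneg : A1 * (σ * p) + B1 * (-(σ * p')) < 0 := by
    rw [← hAB1]
    exact mul_neg_of_pos_of_neg hdt (by linarith)
  have hs1 : 0 < σ * p ∨ σ * p' < 0 := by
    by_contra hc
    push Not at hc
    have h1 := mul_nonpos_of_nonneg_of_nonpos hA hc.1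
    have h2 := mul_nonpos_of_nonneg_of_nonpos hB' (show -(σ * p') ≤ 0 by linarith [hc.2])
    linarith
  have hs2 : σ * p < 0 ∨ 0 < σ * p' := by
    by_contra hc
    push Not at hc
    have h1 := mul_nonneg hA1 hc.1
    have h2 := mul_nonneg hB1 (show 0 ≤ -(σ * p') by linarith [hc.2])
    linarith
  have hL1 : L ≤ 2 * r := by
    have := sg1 e' e f x z hV' hVf (fun h => hfe h.symm)
    rwa [n1] at this
  have hL2 : L ≤ 2 * r' := by
    have := sg1 e e' f' x z' hV hVf' (fun h => hfe' h.symm)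
    rwa [n1''] at this
  have hipe : ip e.1 e'.1 = p * p' + q * q' := by
    rw [c1]
  obtain ⟨hNz1, hNz2⟩ := hN z hVf.cl
  obtain ⟨hNz1', hNz2'⟩ := hN z' hVf'.cl
  have hsg : ∀ a1 a2 c1' c2' : ℝ, p * p' + q * q' = a1 * a2 - c1' * c2' →
      |dt e.1 e'.1| = a1 * c2' + a2 * c1' → a1 * a2 < c1' * c2' →
      (r ≤ r' → L / 2 ≤ r * (a1 * c2' + a2 * c1')) ∧
        (r' ≤ r → L / 2 ≤ r' * (a1 * c2' + a2 * c1')) := by
    intro a1 a2 c1' c2' h1 h2 h3
    have h4 : ip e.1 e'.1 < 0 := by rw [hipe, h1]; linarith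
    constructor
    · intro h
      have h5 := sg2 e e' f f' x z z' hV hVf hfe hVf' hfe' n2 n2'.symm h4
        (by rw [n1, n1'']; exact h)
      rw [n1, h2] at h5
      linarith
    · intro h
      have h4' : ip e'.1 e.1 < 0 := by rw [ip_cm]; exact h4
      have h5 := sg2 e' e f' f x z' z hV' hVf' hfe' hVf hfe n2'.symm n2 h4'
        (by rw [n1, n1'']; exact h)
      have h6 : |dt e'.1 e.1| = |dt e.1 e'.1| := by
        have : dt e'.1 e.1 = -dt e.1 e'.1 := by unfold dt; ring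
        rw [this, abs_neg]
      rw [n1'', h6, h2] at h5
      linarith
  have hcase : (0 < σ * p ∧ 0 < σ * p') ∨ (σ * p < 0 ∧ σ * p' < 0) := by
    rcases hs1 with h | h
    · rcases hs2 with h' | h'
      · linarith
      · exact Or.inl ⟨h, h'⟩
    · rcases hs2 with h' | h'
      · exact Or.inr ⟨h', h⟩
      · linarith
  have f1 : (σ * q) ^ 2 + (σ * p) ^ 2 = 1 := by
    have : (σ * q) ^ 2 + (σ * p) ^ 2 = (σ * σ) * (p ^ 2 + q ^ 2) := by ring
    rw [this, hστ, hu, one_mul]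
  have f2 : (σ * q') ^ 2 + (σ * p') ^ 2 = 1 := by
    have : (σ * q') ^ 2 + (σ * p') ^ 2 = (σ * σ) * (p' ^ 2 + q' ^ 2) := by ring
    rw [this, hστ, hu', one_mul]
  have f3 : p * p' + q * q' = (σ * p) * (σ * p') - (σ * q) * (-(σ * q')) := by
    have : (σ * p) * (σ * p') - (σ * q) * (-(σ * q')) = (σ * σ) * (p * p' + q * q') := by ring
    rw [this, hστ, one_mul]
  have f4 : dt e.1 e'.1 = σ * (σ * p * (-(σ * q')) + σ * p' * (σ * q)) := by
    rw [hd]
    have : σ * (σ * p * (-(σ * q')) + σ * p' * (σ * q)) = (σ * σ) * (σ * (q * p' - p * q')) := by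
      ring
    rw [this, hστ, one_mul]
  rcases hcase with ⟨k1, k2⟩ | ⟨k1, k2⟩
  · refine r1 (a1 := σ * p) (a2 := σ * p') (c1 := σ * q) (c2 := -(σ * q')) (r := r) (r' := r')
      (d := L / 2) k1 k2 hc1 hc2 f1 (by rw [neg_sq]; exact f2) (by linarith) (by linarith)
      (by linarith) ?_ (hsg _ _ _ _ f3 ?_)
    · linarith
    · rw [f4, abs_mul, hσa, one_mul, abs_of_nonneg]
      have m1 := mul_nonneg k1.le hc2
      have m2 := mul_nonneg k2.le hc1
      linarith
  · refine r1 (a1 := -(σ * p)) (a2 := -(σ * p')) (c1 := σ * q) (c2 := -(σ * q')) (r := r)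
      (r' := r') (d := L / 2) (by linarith) (by linarith) hc1 hc2 (by rw [neg_sq]; exact f1)
      (by rw [neg_sq, neg_sq]; exact f2) (by linarith) (by linarith)
      (by linarith) ?_ (hsg _ _ _ _ (by rw [f3]; ring) ?_)
    · linarith
    · rw [f4, abs_mul, hσa, one_mul]
      have m1 := mul_nonneg (show 0 ≤ -(σ * p) by linarith) hc2
      have m2 := mul_nonneg (show 0 ≤ -(σ * p') by linarith) hc1
      rw [abs_of_nonpos (by linarith)]
      ring

/-- a side from `a` to `a'` on the side of the direction `τ` -/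
theorem claim (end_ : EndStmt) (sgl : SglStmt) (vxx : VxxStatement) (X : Finset HP) (L : ℝ)
    (hX : Pg X) (hL : 0 < L) (hB : Below X L) {a a' : HP} (ha : a ∈ X) (ha' : a' ∈ X)
    (hopp : a'.1 = -a.1) (hdist : a.2 + a'.2 = L / 2) {τ : ℂ} {σ : ℝ}
    (hτ : τ = (σ : ℂ) * (I * a.1)) (hσ : σ ^ 2 = 1) :
    ∃ (e : HP) (z z' : ℂ), VxOf X a e z ∧ VxOf X e a' z' ∧ 0 < ip e.1 τ := by
  have hν : ‖a.1‖ = 1 := hX.unit a ha
  obtain ⟨c1, c2, c3, c4, c5, c6⟩ := co hν hτ hσ
  obtain ⟨v1, v2, v3, v4, v5, v6, v7, v8, v9, v10, v11⟩ := vxx X hX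
  have hστ : σ * σ = 1 := by nlinarith
  obtain ⟨u0, hu0, hu0'⟩ := hX.side a ha
  have hu0C : u0 ∈ Cl X := by
    intro s hs
    by_cases h : s = a
    · rw [h, hu0]
    · exact (hu0' s hs h).le
  have hcont : ∀ u : ℂ, Continuous fun y : ℂ => ip u y := by
    intro u
    unfold ip
    fun_prop
  obtain ⟨y0, hy0, hy0m⟩ := v9.exists_isMaxOn ⟨u0, hu0C⟩ (hcont τ).continuousOn
  have hy0m' : ∀ y ∈ Cl X, ip τ y ≤ ip τ y0 := fun y hy => hy0m hy
  set S : Set ℂ := Cl X ∩ {y | ip τ y = ip τ y0} with hS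
  have hSc : IsCompact S := v9.inter_right (isClosed_eq (hcont τ) continuous_const)
  obtain ⟨x, hxS, hxm⟩ := hSc.exists_isMaxOn ⟨y0, hy0, rfl⟩ (hcont a.1).continuousOn
  have hx : x ∈ Cl X := hxS.1
  have hxτ : ip τ x = ip τ y0 := hxS.2
  have hmax : ∀ y ∈ Cl X, ip τ y ≤ ip τ x := fun y hy => by rw [hxτ]; exact hy0m' y hy
  have hlex : ∀ y ∈ Cl X, ip τ y = ip τ x → ip a.1 y ≤ ip a.1 x := fun y hy h =>
    hxm (show y ∈ S from ⟨hy, by rw [← hxτ]; exact h⟩)
  rcases eq_or_lt_of_le (hx a ha) with hon | h0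
  · obtain ⟨e, z, k1, k2, k3⟩ := r2 end_ sgl vxx X L hX hL hB ha ha' hopp hdist hτ hσ hx hmax hon
    exact ⟨e, x, z, k1, k2, k3⟩
  · rcases eq_or_lt_of_le (hx a' ha') with hon | h0'
    · have hτ' : τ = ((-σ : ℝ) : ℂ) * (I * a'.1) := by
        rw [hτ, hopp]
        push_cast
        ring
      obtain ⟨e, z, k1, k2, k3⟩ := r2 end_ sgl vxx X L hX hL hB ha' ha
        (by rw [hopp, neg_neg]) (by linarith) hτ' (by rw [neg_sq]; exact hσ) hx hmax hon
      exact ⟨e, z, x, ⟨k2.cl, k2.mem₂, k2.mem₁, k2.ne.symm, k2.on₂, k2.on₁⟩,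
        ⟨k1.cl, k1.mem₂, k1.mem₁, k1.ne.symm, k1.on₂, k1.on₁⟩, k3⟩
    · exfalso
      have h1 : ∃ e ∈ X, ip e.1 x = e.2 ∧ 0 < ip e.1 τ := by
        by_contra hno
        push Not at hno
        obtain ⟨ε, hε, hC⟩ := stp X hx hno
        have h2 := hmax _ hC
        rw [ip_add', c5] at h2
        linarith
      obtain ⟨e, he, hex, hep⟩ := h1
      rw [ip_cm] at hep
      obtain ⟨κ, hκ⟩ : ∃ κ : ℝ, 0 < κ * (σ * ip a.1 e.1) ∨
          (κ * (σ * ip a.1 e.1) = 0 ∧ 0 < κ * (-(σ * ip τ e.1))) := by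
        rcases lt_trichotomy (σ * ip a.1 e.1) 0 with h | h | h
        · exact ⟨-1, Or.inl (by linarith)⟩
        · refine ⟨-σ, Or.inr ⟨by rw [h]; ring, ?_⟩⟩
          have : -σ * (-(σ * ip τ e.1)) = (σ * σ) * ip τ e.1 := by ring
          rw [this, hστ, one_mul]
          exact hep
        · exact ⟨1, Or.inl (by linarith)⟩
      have hperp : ip e.1 (I * e.1) = 0 := by
        unfold ip
        simp
        ring
      have h2 : ∃ e' ∈ X, ip e'.1 x = e'.2 ∧ 0 < ip e'.1 ((κ : ℂ) * (I * e.1)) := by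
        by_contra hno
        push Not at hno
        obtain ⟨ε, hε, hC⟩ := stp X hx hno
        have g1 : ip τ (x + (ε : ℂ) * ((κ : ℂ) * (I * e.1))) =
            ip τ x + ε * (κ * (σ * ip a.1 e.1)) := by
          rw [ip_add']
          have := ip_add' τ 0 (I * e.1) κ
          rw [zero_add, c3] at this
          rw [this]
          unfold ip
          simp
        have g2 : ip a.1 (x + (ε : ℂ) * ((κ : ℂ) * (I * e.1))) =
            ip a.1 x + ε * (κ * (-(σ * ip τ e.1))) := by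
          rw [ip_add']
          have := ip_add' a.1 0 (I * e.1) κ
          rw [zero_add, c4] at this
          rw [this]
          unfold ip
          simp
        rcases hκ with h | ⟨h, h'⟩
        · have := hmax _ hC
          rw [g1] at this
          have := mul_pos hε h
          linarith
        · have := hlex _ hC (by rw [g1, h]; ring)
          rw [g2] at this
          have := mul_pos hε h'
          linarith
      obtain ⟨e', he', hex', hep'⟩ := h2
      have hee : e ≠ e' := by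
        rintro rfl
        have := ip_add' e.1 0 (I * e.1) κ
        rw [zero_add, hperp] at this
        rw [this] at hep'
        unfold ip at hep'
        simp at hep'
      have hV : VxOf X e e' x := ⟨hx, he, he', hee, hex, hex'⟩
      have hV' : VxOf X e' e x := ⟨hx, he', he, hee.symm, hex', hex⟩
      have hdt0 : dt e.1 e'.1 ≠ 0 := (v5 e e' x hV).2.2
      rcases lt_or_gt_of_ne hdt0 with h | h
      · have h' : 0 < dt e'.1 e.1 := by
          have : dt e'.1 e.1 = -dt e.1 e'.1 := by unfold dt; ring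
          linarith
        exact r1core end_ sgl X L hX hL hB ha ha' hopp hdist hτ hσ hmax h0 h0' hV' hV h'
      · exact r1core end_ sgl X L hX hL hB ha ha' hopp hdist hτ hσ hmax h0 h0' hV hV' h

theorem ncj (end_ : EndStmt) (sgl : SglStmt) (crd : CrdStmt) (vxx : VxxStatement) : NcjStmt := by
  intro X L hX hL hB a a' hfp
  have hopp := hfp.opp
  have hdist := hfp.dist
  have h1 : I * a.1 = ((1 : ℝ) : ℂ) * (I * a.1) := by push_cast; ring
  have h2 : -(I * a.1) = ((-1 : ℝ) : ℂ) * (I * a.1) := by push_cast; ring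
  obtain ⟨e, z1, z2, k1, k2, k3⟩ := claim end_ sgl vxx X L hX hL hB hfp.mem hfp.mem' hopp hdist
    h1 (by norm_num)
  obtain ⟨e', z4, z3, m1, m2, m3⟩ := claim end_ sgl vxx X L hX hL hB hfp.mem hfp.mem' hopp hdist
    h2 (by norm_num)
  rw [ip_neg'] at m3
  exact (crd X hX).2 a e a' e' z1 z2 z3 z4 hopp k1 k2
    ⟨m2.cl, m2.mem₂, m2.mem₁, m2.ne.symm, m2.on₂, m2.on₁⟩
    ⟨m1.cl, m1.mem₂, m1.mem₁, m1.ne.symm, m1.on₂, m1.on₁⟩ k3 (by linarith)

end Pool.Agent.QUD.H98J
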